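import Pool.Agent.H671R2.Search
import Pool.Agent.Y600.DC.Stm

/-!
# DC-ALG: the multiplicative weights algorithm runs in polynomial time
-/

set_option autoImplicit false

namespace Pool.Agent.Y10.DC

open Pool.Agent.NPC Pool.Agent.NPC.R671 Pool.Agent.Y600.DC Pool.Agent.H622R2

/-- equal or adjacent, read off the matrix -/
def nb (M : List (List Bool)) (v u : ℕ) : Bool := decide (v = u) || (M.getD v []).getD u false

/-- the weight of the closed neighbourhood of `u` -/
def ld (M : List (List Bool)) (s : List (ℕ × ℕ)) (u : ℕ) : ℕ :=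
  ((s.zipIdx).map (fun p => if nb M p.2 u = true then p.1.1 else 0)).sum

/-- the first vertex of maximal load -/
def best (M : List (List Bool)) (s : List (ℕ × ℕ)) : ℕ :=
  (((List.range M.length).filter (fun u => (List.range M.length).all
    (fun u' => decide (ld M s u' ≤ ld M s u)))).head?).getD 0

/-- one round -/
def step (M : List (List Bool)) (s : List (ℕ × ℕ)) : List (ℕ × ℕ) :=
  s.zipIdx.map (fun p => if nb M p.2 (best M s) = true then
    ((2 * M.length + 1) * p.1.1, p.1.2 + 1) else ((2 * M.length + 2) * p.1.1, p.1.2))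

/-- the start -/
def start (M : List (List Bool)) : List (ℕ × ℕ) := (List.range M.length).map (fun _ => (1, 0))

/-- the number of rounds, as a polynomial -/
noncomputable def rp : Polynomial ℕ := Polynomial.C 8 * (Polynomial.X + Polynomial.C 1) ^ 4

theorem rp_eval (m : ℕ) : rp.eval m = rounds m := by
  simp [rp, rounds]

/-- the states -/
def state (M : List (List Bool)) (t : ℕ) : List (ℕ × ℕ) := (step M)^[t] (start M)

/-- the algorithm -/
def algo (a : List (List Bool) × ℕ) : Bool :=
  (state a.1 (rounds a.1.length)).all (fun q =>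
    decide (8 * ((a.1.length + 1) * (a.1.length + 1) * (a.1.length + 1) * (a.1.length + 1)) <
      (a.2 + 1) * q.2))

/-! ### polynomial time -/

section poly

variable {α β : Type} [TEnc α] [TEnc β]

@[fun_prop]
theorem poly_rangeLen {l : α → List β} (hl : Poly l) : Poly (fun a => List.range (l a).length) :=
  (UPoly.length hl).range

@[fun_prop]
theorem poly_nb {M : α → List (List Bool)} {v u : α → ℕ} (hM : Poly M) (hv : Poly v)
    (hu : Poly u) : Poly (fun a => nb (M a) (v a) (u a)) := by
  unfold nb
  fun_prop

@[fun_prop]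
theorem poly_ld {M : α → List (List Bool)} {s : α → List (ℕ × ℕ)} {u : α → ℕ} (hM : Poly M)
    (hs : Poly s) (hu : Poly u) : Poly (fun a => ld (M a) (s a) (u a)) := by
  unfold ld
  fun_prop

@[fun_prop]
theorem poly_best {M : α → List (List Bool)} {s : α → List (ℕ × ℕ)} (hM : Poly M)
    (hs : Poly s) : Poly (fun a => best (M a) (s a)) := by
  unfold best
  fun_prop

@[fun_prop]
theorem poly_step {M : α → List (List Bool)} {s : α → List (ℕ × ℕ)} (hM : Poly M)
    (hs : Poly s) : Poly (fun a => step (M a) (s a)) := by
  unfold step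
  fun_prop

@[fun_prop]
theorem poly_start {M : α → List (List Bool)} (hM : Poly M) : Poly (fun a => start (M a)) := by
  unfold start
  fun_prop

end poly

theorem length_step (M : List (List Bool)) (s : List (ℕ × ℕ)) : (step M s).length = s.length := by
  simp [step]

theorem length_state (M : List (List Bool)) (t : ℕ) : (state M t).length = M.length := by
  induction t with
  | zero => simp [state, start]
  | succ t ih =>
    unfold state at ih ⊢
    rw [Function.iterate_succ_apply', length_step, ih]

theorem state_bound (M : List (List Bool)) (t : ℕ) :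
    ∀ q ∈ state M t, q.1 ≤ (2 * M.length + 2) ^ t ∧ q.2 ≤ t := by
  induction t with
  | zero =>
    intro q hq
    simp only [state, start, Function.iterate_zero, id_eq, List.mem_map] at hq
    obtain ⟨_, _, rfl⟩ := hq
    simp
  | succ t ih =>
    intro q hq
    have e : state M (t + 1) = step M (state M t) := by
      unfold state
      rw [Function.iterate_succ_apply']
    rw [e] at hq
    unfold step at hq
    rw [List.mem_map] at hq
    obtain ⟨⟨q', i⟩, hq', rfl⟩ := hq
    have hm : q' ∈ state M t := by
      rw [List.mem_zipIdx_iff_getElem?] at hq'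
      exact List.mem_of_getElem? hq'
    obtain ⟨h1, h2⟩ := ih q' hm
    dsimp only
    split_ifs
    · refine ⟨?_, by simpa using h2⟩
      dsimp only
      rw [pow_succ, mul_comm]
      exact Nat.mul_le_mul h1 (by omega)
    · refine ⟨?_, h2.trans (Nat.le_succ t)⟩
      dsimp only
      rw [pow_succ, mul_comm]
      exact Nat.mul_le_mul h1 le_rfl

theorem size_pow_le (b t : ℕ) : ((b + 1) ^ t).size ≤ (b + 1) * t + 1 := by
  rw [Nat.size_le]
  have h1 : b + 1 < 2 ^ (b + 1) := Nat.lt_two_pow_self
  calc (b + 1) ^ t ≤ (2 ^ (b + 1)) ^ t := Nat.pow_le_pow_left h1.le t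
    _ = 2 ^ ((b + 1) * t) := by rw [pow_mul]
    _ < 2 ^ ((b + 1) * t + 1) := Nat.pow_lt_pow_right (by norm_num) (by omega)

/-- the bound of the size of the states -/
noncomputable def qp : Polynomial ℕ :=
  Polynomial.X * (Polynomial.C 4 * ((Polynomial.C 2 * Polynomial.X + Polynomial.C 2) * rp +
    Polynomial.C 1) + Polynomial.C 4 * rp + Polynomial.C 5) + Polynomial.C 1

theorem sz_state (a : List (List Bool) × ℕ) (t : ℕ) (ht : t ≤ rounds a.1.length) :
    sz (state a.1 t) ≤ qp.eval (sz a) := by
  have hn : a.1.length ≤ sz a := by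
    have h := length_lt_sz a.1
    have h' : sz a = sz a.1 + sz a.2 + 1 := sz_pair a.1 a.2
    omega
  have hr : rounds a.1.length ≤ rp.eval (sz a) := by
    rw [rp_eval]
    unfold rounds
    exact Nat.mul_le_mul le_rfl (Nat.pow_le_pow_left (by omega) 4)
  set N := sz a with hN
  set R := rp.eval N with hR
  have hB : ∀ q ∈ state a.1 t, sz q ≤ 4 * ((2 * N + 2) * R + 1) + 4 * R + 3 := by
    intro q hq
    obtain ⟨h1, h2⟩ := state_bound a.1 t q hq
    have h3 : q.1.size ≤ (2 * N + 2) * R + 1 := by
      refine (Nat.size_le_size h1).trans ?_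
      have h4 := size_pow_le (2 * a.1.length + 1) t
      have h5 : (2 * a.1.length + 1 + 1) * t ≤ (2 * N + 2) * R :=
        Nat.mul_le_mul (by omega) (ht.trans hr)
      have h6 : 2 * a.1.length + 2 = 2 * a.1.length + 1 + 1 := rfl
      rw [h6]
      omega
    have h4 : q.2.size ≤ R := by
      have h5 : q.2.size ≤ q.2 := by
        rw [Nat.size_le]
        exact Nat.lt_two_pow_self
      omega
    have h5 := sz_nat_le q.1
    have h6 := sz_nat_le q.2
    obtain ⟨x, y⟩ := q
    rw [sz_pair]
    simp only at h3 h4 h5 h6
    omega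
  have h := sz_le_length_mul (state a.1 t) _ hB
  rw [length_state] at h
  have he : qp.eval N = N * (4 * ((2 * N + 2) * R + 1) + 4 * R + 5) + 1 := by
    simp [qp, hR]
  rw [he]
  refine h.trans ?_
  have : a.1.length * (4 * ((2 * N + 2) * R + 1) + 4 * R + 3 + 1) ≤
      N * (4 * ((2 * N + 2) * R + 1) + 4 * R + 5) := Nat.mul_le_mul hn (by omega)
  omega

theorem poly_algo : Poly algo := by
  have h1 : Poly (fun a : List (List Bool) × ℕ =>
      (step a.1)^[(List.range (rp.eval a.1.length)).length] (start a.1)) := by
    refine Poly.iterLen (F := fun (a : List (List Bool) × ℕ) s => step a.1 s)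
      ((UPoly.length (Poly.fst Poly.id)).eval rp).range ?_ ?_ qp ?_
    · fun_prop
    · fun_prop
    · intro a k hk
      rw [List.length_range, rp_eval] at hk
      exact sz_state a k hk
  have h2 : Poly (fun a : List (List Bool) × ℕ => state a.1 (rounds a.1.length)) := by
    refine h1.congr fun a => ?_
    rw [List.length_range, rp_eval]
    rfl
  unfold algo
  fun_prop

/-! ### correctness -/

theorem best_spec (M : List (List Bool)) (s : List (ℕ × ℕ)) (hM : 0 < M.length) :
    best M s < M.length ∧ ∀ u < M.length, ld M s u ≤ ld M s (best M s) := by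
  set L := (List.range M.length).filter (fun u => (List.range M.length).all
    (fun u' => decide (ld M s u' ≤ ld M s u))) with hL
  have hne : L ≠ [] := by
    obtain ⟨m, hm, hm'⟩ := Finset.exists_max_image (Finset.range M.length) (ld M s)
      ⟨0, Finset.mem_range.2 hM⟩
    have : m ∈ L := by
      rw [hL, List.mem_filter]
      refine ⟨List.mem_range.2 (Finset.mem_range.1 hm), ?_⟩
      rw [List.all_eq_true]
      intro u hu
      exact decide_eq_true (hm' u (Finset.mem_range.2 (List.mem_range.1 hu)))
    exact List.ne_nil_of_mem this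
  have hb : best M s ∈ L := by
    unfold best
    rw [← hL]
    obtain ⟨x, l, hxl⟩ := List.exists_cons_of_ne_nil hne
    rw [hxl]
    simp
  rw [hL, List.mem_filter] at hb
  refine ⟨List.mem_range.1 hb.1, fun u hu => ?_⟩
  have h := (List.all_eq_true.1 hb.2) u (List.mem_range.2 hu)
  exact of_decide_eq_true h

theorem zipIdx_ofFn_map {α β : Type} {n : ℕ} (f : Fin n → α) (g : α × ℕ → β) :
    (List.ofFn f).zipIdx.map g = List.ofFn (fun i : Fin n => g (f i, (i : ℕ))) := by
  apply List.ext_getElem
  · simp
  · intro i h1 h2
    simp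

theorem length_adj {n : ℕ} (G : SimpleGraph (Fin n)) : (adjMatrix G).length = n := by
  simp [adjMatrix]

theorem nb_adj {n : ℕ} (G : SimpleGraph (Fin n)) (v u : Fin n) :
    nb (adjMatrix G) v u = true ↔ Close G v u := by
  unfold nb Close adjMatrix
  rw [Bool.or_eq_true, decide_eq_true_iff, Fin.val_inj]
  refine or_congr_right ?_
  have h1 : (v : ℕ) < (List.ofFn fun i : Fin n => List.ofFn fun j : Fin n =>
    (Classical.dec (G.Adj i j)).decide).length := by simp
  simp [List.getD_eq_getElem?_getD]

section run

variable {n : ℕ} (G : SimpleGraph (Fin n)) (hn : 0 < n)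

/-- the choice of the algorithm -/
noncomputable def pick (t : ℕ) : Fin n :=
  ⟨best (adjMatrix G) (state (adjMatrix G) t), by
    have h := (best_spec (adjMatrix G) (state (adjMatrix G) t) (by rwa [length_adj])).1
    rwa [length_adj] at h⟩

/-- the entries of the state -/
noncomputable def entry (t : ℕ) (v : Fin n) : ℕ × ℕ :=
  ((2 * n + 1) ^ cnt G (pick G hn) t v * (2 * n + 2) ^ (t - cnt G (pick G hn) t v),
    cnt G (pick G hn) t v)

theorem cnt_le (p : ℕ → Fin n) (t : ℕ) (v : Fin n) : cnt G p t v ≤ t := by
  classical
  unfold cnt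
  exact (Finset.card_filter_le _ _).trans (by simp)

open Classical in
theorem cnt_succ (p : ℕ → Fin n) (t : ℕ) (v : Fin n) :
    cnt G p (t + 1) v = cnt G p t v + if Close G v (p t) then 1 else 0 := by
  unfold cnt
  rw [Finset.range_add_one, Finset.filter_insert]
  split_ifs with h
  · rw [Finset.card_insert_of_notMem]
    simp
  · rfl

theorem state_eq (t : ℕ) : state (adjMatrix G) t = List.ofFn (entry G hn t) := by
  induction t with
  | zero =>
    unfold state start
    rw [Function.iterate_zero, id_eq, length_adj]
    apply List.ext_getElem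
    · simp
    · intro i h1 h2
      simp [entry, cnt]
  | succ t ih =>
    have e : state (adjMatrix G) (t + 1) = step (adjMatrix G) (state (adjMatrix G) t) := by
      unfold state
      rw [Function.iterate_succ_apply']
    rw [e]
    have hp : best (adjMatrix G) (state (adjMatrix G) t) = (pick G hn t : ℕ) := rfl
    unfold step
    rw [hp, length_adj, ih, zipIdx_ofFn_map]
    congr 1
    funext v
    have hc := cnt_succ G (pick G hn) t v
    have hle := cnt_le G (pick G hn) t v
    dsimp only
    by_cases h : Close G v (pick G hn t)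
    · rw [if_pos ((nb_adj G v _).2 h)]
      rw [if_pos h] at hc
      unfold entry
      rw [hc]
      refine Prod.ext ?_ rfl
      dsimp only
      have h2 : t + 1 - (cnt G (pick G hn) t v + 1) = t - cnt G (pick G hn) t v := by omega
      rw [h2, pow_succ]
      ring
    · rw [if_neg (fun h' => h ((nb_adj G v _).1 h'))]
      rw [if_neg h, add_zero] at hc
      unfold entry
      rw [hc]
      refine Prod.ext ?_ rfl
      dsimp only
      have h2 : t + 1 - cnt G (pick G hn) t v = t - cnt G (pick G hn) t v + 1 := by omega
      rw [h2, pow_succ]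
      ring

theorem ld_eq (t : ℕ) (u : Fin n) :
    ld (adjMatrix G) (state (adjMatrix G) t) u = load G (pick G hn) t u := by
  classical
  unfold ld load
  rw [state_eq G hn, zipIdx_ofFn_map, List.sum_ofFn, Finset.sum_filter]
  refine Finset.sum_congr rfl fun v _ => ?_
  dsimp only
  by_cases h : Close G v u
  · rw [if_pos ((nb_adj G v u).2 h), if_pos h]
    rfl
  · rw [if_neg (fun h' => h ((nb_adj G v u).1 h')), if_neg h]

theorem greedy (T : ℕ) : Greedy G (pick G hn) T := by
  intro t _ u
  have h := (best_spec (adjMatrix G) (state (adjMatrix G) t) (by rwa [length_adj])).2 u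
    (by rw [length_adj]; exact u.2)
  rw [ld_eq G hn] at h
  refine h.trans (le_of_eq ?_)
  exact ld_eq G hn t (pick G hn t)

theorem algo_eq (k : ℕ) : algo (adjMatrix G, k) = true ↔
    ∀ v, rounds n < (k + 1) * cnt G (pick G hn) (rounds n) v := by
  unfold algo
  dsimp only
  rw [length_adj, state_eq G hn, List.all_eq_true]
  have hr : 8 * ((n + 1) * (n + 1) * (n + 1) * (n + 1)) = rounds n := by
    unfold rounds
    ring
  rw [hr]
  constructor
  · intro h v
    have := h (entry G hn (rounds n) v) (by rw [List.mem_ofFn]; exact ⟨v, rfl⟩)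
    exact of_decide_eq_true this
  · intro h q hq
    rw [List.mem_ofFn] at hq
    obtain ⟨v, rfl⟩ := hq
    exact decide_eq_true (h v)

end run

/-- **DC-ALG.** -/
theorem alg : S_ALG := by
  refine ⟨fun w => [(unbits (List (List Bool) × ℕ) w).any algo], polyTime_of_poly ?_, ?_, ?_⟩
  · exact NPC.Poly.optAny_fp (o := fun w => unbits (List (List Bool) × ℕ) w)
      (h := fun _ a => algo a) poly_unbits (poly_algo.comp (NPC.Poly.snd NPC.Poly.id))
  · intro G k
    simp only [unbits_bits, Option.any_some]
    have h : algo (adjMatrix G, k) = true := by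
      unfold algo
      rw [List.all_eq_true]
      intro q hq
      have hl : (state (adjMatrix G) (rounds (adjMatrix G).length)).length = 0 := by
        rw [length_state, length_adj]
      dsimp only at hq
      rw [List.length_eq_zero_iff.1 hl] at hq
      simp at hq
    rw [h]
  · intro n G k hn
    refine ⟨pick G hn, greedy G hn _, ?_⟩
    simp only [unbits_bits, Option.any_some, List.cons.injEq, and_true]
    exact algo_eq G hn k

end Pool.Agent.Y10.DC
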